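import Pool.Agent.Work.MP_943409_an_helper82.P1

/-!
# MP_943409_an, blocks P6 (Heinz type inequality) and P7 (Yamazaki's upper bound)
-/

open Complex Filter Topology
open scoped ComplexOrder InnerProductSpace
set_option linter.unusedSectionVars false

namespace Aluthge
namespace BP

variable {H : Type} [NormedAddCommGroup H] [InnerProductSpace ℂ H] [CompleteSpace H]

theorem spectralRadius_mul_comm (a b : H →L[ℂ] H) :
    spectralRadius ℂ (a * b) = spectralRadius ℂ (b * a) := by
  have h := spectrum.nonzero_mul_comm (𝕜 := ℂ) a b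
  have key : ∀ c : H →L[ℂ] H, spectralRadius ℂ c
      = ⨆ k ∈ spectrum ℂ c \ {0}, (‖k‖₊ : ENNReal) := by
    intro c
    rw [spectralRadius]
    apply le_antisymm
    · refine iSup₂_le (fun k hk => ?_)
      by_cases h0 : k = 0
      · simp [h0]
      · exact le_iSup₂_of_le k ⟨hk, h0⟩ le_rfl
    · exact iSup₂_le (fun k hk => le_iSup₂_of_le k hk.1 le_rfl)
  rw [key, key, h]

theorem norm_le_of_comm {R Y : H →L[ℂ] H} (hR : star R = R) (hY : star Y = Y) :
    ‖R * Y * R‖ ≤ ‖Y * (R * R)‖ := by
  rcases subsingleton_or_nontrivial H with h | h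
  · have : R * Y * R = 0 := by ext x; exact Subsingleton.elim _ _
    rw [this, norm_zero]; exact norm_nonneg _
  have hs : IsSelfAdjoint (R * Y * R) := by
    rw [isSelfAdjoint_iff, star_mul, star_mul, hR, hY]; noncomm_ring
  have h1 : spectralRadius ℂ (R * Y * R) = ‖R * Y * R‖₊ := hs.spectralRadius_eq_nnnorm
  have h2 : spectralRadius ℂ (R * (Y * R)) = spectralRadius ℂ ((Y * R) * R) :=
    spectralRadius_mul_comm R (Y * R)
  have h3 : spectralRadius ℂ (Y * (R * R)) ≤ ‖Y * (R * R)‖₊ := spectrum.spectralRadius_le_nnnorm _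
  rw [mul_assoc] at h1
  rw [h1, mul_assoc Y R R] at h2
  rw [← h2] at h3
  have h4 : ‖R * (Y * R)‖₊ ≤ ‖Y * (R * R)‖₊ := by exact_mod_cast h3
  rw [mul_assoc R Y R]
  exact_mod_cast h4

theorem norm_ab_mul (T S : H →L[ℂ] H) : ‖ab T * S‖ = ‖T * S‖ := by
  apply le_antisymm
  · refine ContinuousLinearMap.opNorm_le_bound _ (norm_nonneg _) (fun x => ?_)
    rw [mul_apply_eq_comp, norm_ab, ← mul_apply_eq_comp]
    exact (T * S).le_opNorm x
  · refine ContinuousLinearMap.opNorm_le_bound _ (norm_nonneg _) (fun x => ?_)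
    rw [mul_apply_eq_comp, ← norm_ab, ← mul_apply_eq_comp]
    exact (ab T * S).le_opNorm x

theorem alu_pow (T : H →L[ℂ] H) (m : ℕ) : alu T ^ (m + 1) = rt T * (T ^ m * uu T) * rt T := by
  induction m with
  | zero => rw [zero_add, pow_one, pow_zero, one_mul, alu_eq]
  | succ n ih =>
    rw [pow_succ, ih, alu_eq]
    calc rt T * (T ^ n * uu T) * rt T * (rt T * uu T * rt T)
        = rt T * (T ^ n * (uu T * (rt T * rt T)) * uu T) * rt T := by noncomm_ring
      _ = rt T * (T ^ (n + 1) * uu T) * rt T := by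
          rw [BS.rt_mul_rt, uu_mul_ab, pow_succ]

end BP

theorem stmt_P6 : Stmt_P6 := by
  intro H _ _ _ T m
  set X : H →L[ℂ] H := T ^ m * BP.uu T with hX
  set R := rt T with hR
  have hRs : star R = R := BS.star_rt T
  have hRR : R * R = ab T := BS.rt_mul_rt T
  have h1 : ‖alu T ^ (m + 1)‖ ^ 2 = ‖R * (star X * ab T * X) * R‖ := by
    rw [BP.alu_pow, ← hR, ← hX, sq, ← CStarRing.norm_star_mul_self]
    congr 1
    simp only [star_mul, hRs, ← hRR]
    noncomm_ring
  have hY : star (star X * ab T * X) = star X * ab T * X := by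
    simp only [star_mul, star_star, BS.star_ab]
    noncomm_ring
  have h2 : ‖R * (star X * ab T * X) * R‖ ≤ ‖star X * ab T * X * (R * R)‖ :=
    BP.norm_le_of_comm hRs hY
  have h3 : ‖star X * ab T * X * (R * R)‖ ≤ ‖star X‖ * ‖ab T * (X * ab T)‖ := by
    have : star X * ab T * X * (R * R) = star X * (ab T * (X * ab T)) := by
      rw [hRR]; noncomm_ring
    rw [this]; exact norm_mul_le _ _
  have h4 : ab T * (X * ab T) = ab T * T ^ (m + 1) := by
    rw [hX, mul_assoc (T ^ m), BP.uu_mul_ab, pow_succ]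
  have h5 : ‖star X‖ ≤ ‖T ^ m‖ := by
    rw [norm_star, hX]
    calc _ ≤ ‖T ^ m‖ * ‖BP.uu T‖ := norm_mul_le _ _
      _ ≤ ‖T ^ m‖ * 1 := by gcongr; exact BP.uu_norm T
      _ = _ := mul_one _
  rw [h4, BP.norm_ab_mul, ← pow_succ'] at h3
  rw [h1]
  calc _ ≤ ‖star X‖ * ‖T ^ (m + 1 + 1)‖ := h2.trans h3
    _ ≤ ‖T ^ m‖ * ‖T ^ (m + 1 + 1)‖ := by gcongr
    _ = _ := mul_comm _ _

namespace BP

/-- The exponents. -/
noncomputable def ww : ℕ → ℕ → ℝ
  | 0, 0 => 0
  | 0, _ + 1 => 1
  | _ + 1, 0 => 0
  | n + 1, m + 1 => (ww n (m + 2) + ww n m) / 2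

theorem ww_zero (n : ℕ) : ww n 0 = 0 := by cases n <;> simp [ww]

theorem ww_nonneg (n : ℕ) : ∀ m, 0 ≤ ww n m := by
  induction n with
  | zero => intro m; cases m <;> simp [ww]
  | succ n ih =>
    intro m
    cases m with
    | zero => simp [ww]
    | succ m => simp only [ww]; linarith [ih (m + 2), ih m]

theorem ww_le_one (n : ℕ) : ∀ m, ww n m ≤ 1 := by
  induction n with
  | zero => intro m; cases m <;> simp [ww]
  | succ n ih =>
    intro m
    cases m with
    | zero => simp [ww]
    | succ m => simp only [ww]; linarith [ih (m + 2), ih m]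

theorem ww_anti (n : ℕ) : ∀ m, ww (n + 1) m ≤ ww n m := by
  induction n with
  | zero =>
    intro m
    cases m with
    | zero => simp [ww]
    | succ m =>
      have h1 := ww_le_one 0 (m + 2)
      have h2 := ww_le_one 0 m
      have h3 : ww 0 (m + 1) = 1 := rfl
      rw [h3]
      simp only [ww]
      change (1 + ww 0 m) / 2 ≤ 1
      linarith
  | succ n ih =>
    intro m
    cases m with
    | zero => simp [ww]
    | succ m =>
      have h1 := ih (m + 2)
      have h2 := ih m
      rw [ww]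
      change _ ≤ ww (n + 1) (m + 1)
      rw [show ww (n + 1) (m + 1) = (ww n (m + 2) + ww n m) / 2 from rfl]
      linarith

theorem ww_tendsto : Tendsto (fun n => ww n 1) atTop (𝓝 0) := by
  have hanti : ∀ m, Antitone (fun n => ww n m) := fun m => antitone_nat_of_succ_le (fun n => ww_anti n m)
  have hlim : ∀ m, ∃ l, Tendsto (fun n => ww n m) atTop (𝓝 l) := fun m =>
    ⟨_, tendsto_atTop_ciInf (hanti m) ⟨0, by rintro _ ⟨n, rfl⟩; exact ww_nonneg n m⟩⟩
  choose w hw using hlim
  have h0 : w 0 = 0 := by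
    refine tendsto_nhds_unique (hw 0) ?_
    simp only [ww_zero]
    exact tendsto_const_nhds
  have hrec : ∀ m, w (m + 1) = (w (m + 2) + w m) / 2 := by
    intro m
    have h1 : Tendsto (fun n => ww (n + 1) (m + 1)) atTop (𝓝 (w (m + 1))) :=
      (hw (m + 1)).comp (tendsto_add_atTop_nat 1)
    have h2 : Tendsto (fun n => (ww n (m + 2) + ww n m) / 2) atTop (𝓝 ((w (m + 2) + w m) / 2)) :=
      ((hw (m + 2)).add (hw m)).div_const 2
    exact tendsto_nhds_unique h1 h2
  have hlin : ∀ m : ℕ, w m = m * w 1 ∧ w (m + 1) = (m + 1 : ℕ) * w 1 := by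
    intro m
    induction m with
    | zero => simp [h0]
    | succ m ih =>
      refine ⟨ih.2, ?_⟩
      have := hrec m
      have h3 : w (m + 2) = 2 * w (m + 1) - w m := by linarith
      rw [show m + 1 + 1 = m + 2 from rfl, h3, ih.1, ih.2]
      push_cast
      ring
  have hle : ∀ m, w m ≤ 1 := fun m => le_of_tendsto' (hw m) (fun n => ww_le_one n m)
  have hge : 0 ≤ w 1 := ge_of_tendsto' (hw 1) (fun n => ww_nonneg n 1)
  have h1 : w 1 = 0 := by
    by_contra hne
    have hpos : 0 < w 1 := lt_of_le_of_ne hge (Ne.symm hne)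
    obtain ⟨N, hN⟩ := exists_nat_gt (1 / w 1)
    rw [div_lt_iff₀ hpos] at hN
    have := hle N
    rw [(hlin N).1] at this
    linarith
  rw [← h1]
  exact hw 1

end BP

theorem stmt_P7 : Stmt_P7 := by
  intro H _ _ _ T C q hq hT ε hε
  set D : ℝ := max C 1 with hD
  have hD1 : 1 ≤ D := le_max_right _ _
  have hD0 : 0 < D := by linarith
  have key : ∀ n m, ‖(alu^[n] T) ^ m‖ ≤ q ^ m * D ^ (BP.ww n m) := by
    intro n
    induction n with
    | zero =>
      intro m
      cases m with
      | zero =>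
        rw [BP.ww_zero, Real.rpow_zero, pow_zero, pow_zero, mul_one]
        exact ContinuousLinearMap.opNorm_le_bound _ zero_le_one (fun x => by simp)
      | succ m =>
        have h1 : BP.ww 0 (m + 1) = 1 := rfl
        rw [h1, Real.rpow_one, Function.iterate_zero, id]
        calc _ ≤ C * q ^ (m + 1) := hT (m + 1)
          _ ≤ D * q ^ (m + 1) := by gcongr; exact le_max_left _ _
          _ = _ := mul_comm _ _
    | succ n ih =>
      intro m
      cases m with
      | zero =>
        rw [BP.ww_zero, Real.rpow_zero, pow_zero, pow_zero, mul_one]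
        exact ContinuousLinearMap.opNorm_le_bound _ zero_le_one (fun x => by simp)
      | succ m =>
        rw [Function.iterate_succ_apply']
        have h1 := stmt_P6 H (alu^[n] T) m
        have h2 := ih (m + 2)
        have h3 := ih m
        have h4 : q ^ (m + 2) * D ^ BP.ww n (m + 2) * (q ^ m * D ^ BP.ww n m)
            = (q ^ (m + 1) * D ^ BP.ww (n + 1) (m + 1)) ^ 2 := by
          rw [show BP.ww (n + 1) (m + 1) = (BP.ww n (m + 2) + BP.ww n m) / 2 from rfl]
          have e1 : D ^ BP.ww n (m + 2) * D ^ BP.ww n m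
              = (D ^ ((BP.ww n (m + 2) + BP.ww n m) / 2)) ^ 2 := by
            rw [← Real.rpow_add hD0, ← Real.rpow_natCast, ← Real.rpow_mul hD0.le]
            congr 1
            push_cast
            ring
          rw [mul_pow, ← e1]
          ring
        have h5 : ‖alu (alu^[n] T) ^ (m + 1)‖ ^ 2
            ≤ (q ^ (m + 1) * D ^ BP.ww (n + 1) (m + 1)) ^ 2 := by
          rw [← h4]
          refine h1.trans ?_
          gcongr
        exact le_of_sq_le_sq h5 (by positivity)
  have hlim : Tendsto (fun n => q * D ^ (BP.ww n 1)) atTop (𝓝 (q * D ^ (0:ℝ))) := by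
    apply Tendsto.const_mul
    exact Tendsto.rpow tendsto_const_nhds BP.ww_tendsto (Or.inl hD0.ne')
  rw [Real.rpow_zero, mul_one] at hlim
  have hev := (hlim.eventually (gt_mem_nhds (show q < q + ε by linarith)))
  obtain ⟨N, hN⟩ := eventually_atTop.mp hev
  refine ⟨N, fun n hn => ?_⟩
  have h1 := key n 1
  rw [pow_one, pow_one] at h1
  exact h1.trans (hN n hn).le

end Aluthge
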