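import Pool.Agent.Work.MP_943409_an_helper82.P1

/-!
# MP_943409_an, block P: uniform approximation of the Aluthge transform by polynomial expressions
-/

open Complex Filter Topology Polynomial
open scoped ComplexOrder InnerProductSpace
set_option linter.unusedSectionVars false

namespace Aluthge
namespace BP

section Scalar

theorem sqrt_add_le (x y : ℝ) (hx : 0 ≤ x) (hy : 0 ≤ y) : √(x + y) ≤ √x + √y := by
  apply Real.sqrt_le_iff.mpr
  refine ⟨by positivity, ?_⟩
  nlinarith [Real.sq_sqrt hx, Real.sq_sqrt hy, mul_nonneg (Real.sqrt_nonneg x) (Real.sqrt_nonneg y)]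

theorem rpow_quarter_sub (t e : ℝ) (ht : 0 ≤ t) (he : 0 < e) :
    |√(√t) - √t * (1 / √(√(t + e)))| ≤ √(√e) := by
  have h1 : 0 < √(√(t + e)) := by positivity
  have h2 : √(√t) ≤ √(√(t + e)) := Real.sqrt_le_sqrt (Real.sqrt_le_sqrt (by linarith))
  have h3 : √(√(t + e)) ≤ √(√t) + √(√e) := by
    have e1 : √(t + e) ≤ √t + √e := sqrt_add_le _ _ ht he.le
    calc √(√(t + e)) ≤ √(√t + √e) := Real.sqrt_le_sqrt e1
      _ ≤ √(√t) + √(√e) := sqrt_add_le _ _ (by positivity) (by positivity)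
  have h4 : √t = √(√t) * √(√t) := (Real.mul_self_sqrt (Real.sqrt_nonneg t)).symm
  set r := √(√t) with hr
  set q := √(√(t + e)) with hq
  set p := √(√e) with hp
  have hr0 : 0 ≤ r := Real.sqrt_nonneg _
  rw [h4]
  have h5 : r - r * r * (1 / q) = r * ((q - r) / q) := by
    field_simp
  rw [h5, abs_of_nonneg (by
    apply mul_nonneg hr0
    apply div_nonneg _ h1.le
    linarith)]
  calc r * ((q - r) / q) = (q - r) * (r / q) := by ring
    _ ≤ (q - r) * 1 := by
        apply mul_le_mul_of_nonneg_left _ (by linarith)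
        rw [div_le_one h1]; exact h2
    _ ≤ p := by linarith

/-- Polynomial approximation of `t ^ (1/4)`. -/
theorem exists_f (C δ : ℝ) (hδ : 0 < δ) :
    ∃ f : ℝ[X], ∀ t ∈ Set.Icc 0 C, |√(√t) - f.eval t| ≤ δ := by
  obtain ⟨p, hp⟩ := exists_polynomial_near_of_continuousOn 0 C (fun t => √(√t))
    (by fun_prop) δ hδ
  refine ⟨p, fun t ht => ?_⟩
  rw [abs_sub_comm]
  exact (hp t ht).le

/-- Polynomial `g` with `t ^ (1/2) g(t)` close to `t ^ (1/4)`. -/
theorem exists_g (C δ : ℝ) (hδ : 0 < δ) :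
    ∃ g : ℝ[X], ∀ t ∈ Set.Icc 0 C, |√(√t) - √t * g.eval t| ≤ δ := by
  rcases lt_or_ge C 0 with hC | hC
  · exact ⟨0, fun t ht => absurd (ht.1.trans ht.2) (not_le.mpr hC)⟩
  set e : ℝ := (δ / 2) ^ 4 with he
  have he0 : 0 < e := by positivity
  have hee : √(√e) = δ / 2 := by
    have h1 : √e = (δ / 2) ^ 2 := by
      rw [he, show (δ / 2) ^ 4 = ((δ / 2) ^ 2) ^ 2 by ring]
      exact Real.sqrt_sq (by positivity)
    rw [h1]; exact Real.sqrt_sq (by positivity)
  obtain ⟨p, hp⟩ := exists_polynomial_near_of_continuousOn 0 C (fun t => 1 / √(√(t + e)))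
    (by
      apply ContinuousOn.div
      · fun_prop
      · fun_prop
      · intro t ht
        have : 0 < t + e := by linarith [ht.1]
        positivity) (δ / (2 * (√C + 1))) (by positivity)
  refine ⟨p, fun t ht => ?_⟩
  have h1 := rpow_quarter_sub t e ht.1 he0
  rw [hee] at h1
  have h2 := (hp t ht).le
  have h3 : √t ≤ √C := Real.sqrt_le_sqrt ht.2
  have h4 : |√t * (1 / √(√(t + e))) - √t * p.eval t| ≤ δ / 2 := by
    rw [← mul_sub, abs_mul, abs_of_nonneg (Real.sqrt_nonneg t), abs_sub_comm]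
    calc √t * |p.eval t - 1 / √(√(t + e))| ≤ √C * (δ / (2 * (√C + 1))) := by gcongr
      _ ≤ (√C + 1) * (δ / (2 * (√C + 1))) := by gcongr; linarith
      _ = δ / 2 := by field_simp
  calc |√(√t) - √t * p.eval t|
      = |(√(√t) - √t * (1 / √(√(t + e)))) + (√t * (1 / √(√(t + e))) - √t * p.eval t)| := by
        congr 1; ring
    _ ≤ δ / 2 + δ / 2 := (abs_add_le _ _).trans (add_le_add h1 h4)
    _ = δ := by ring

end Scalar

variable {H : Type} [NormedAddCommGroup H] [InnerProductSpace ℂ H] [CompleteSpace H]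

theorem ab_eq_cfc (T : H →L[ℂ] H) : ab T = cfc Real.sqrt (star T * T) := by
  rw [ab, CFC.sqrt_eq_real_sqrt _ (star_mul_self_nonneg T), cfcₙ_eq_cfc]

theorem rt_eq_cfc (T : H →L[ℂ] H) : rt T = cfc (fun t => √(√t)) (star T * T) := by
  have h0 : 0 ≤ star T * T := star_mul_self_nonneg T
  rw [rt, CFC.sqrt_eq_real_sqrt _ (BS.ab_nonneg T), cfcₙ_eq_cfc, ab_eq_cfc,
    ← cfc_comp' Real.sqrt Real.sqrt (star T * T)]

theorem spec_mem (T : H →L[ℂ] H) {C : ℝ} (hC : ‖T‖ ≤ C) {t : ℝ}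
    (ht : t ∈ spectrum ℝ (star T * T)) : t ∈ Set.Icc 0 (C * C) := by
  constructor
  · exact spectrum_nonneg_of_nonneg (star_mul_self_nonneg T) ht
  · have h1 : ‖t‖ ≤ ‖star T * T‖ := by
      have : Nontrivial H ∨ Subsingleton H := (subsingleton_or_nontrivial H).symm
      rcases this with h | h
      · exact spectrum.norm_le_norm_of_mem ht
      · exfalso
        have : Subsingleton (H →L[ℂ] H) := ⟨fun a b => by ext x; exact Subsingleton.elim _ _⟩
        rw [spectrum.of_subsingleton] at ht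
        exact ht
    have h2 : ‖star T * T‖ = ‖T‖ * ‖T‖ := CStarRing.norm_star_mul_self
    have h3 : t ≤ ‖T‖ * ‖T‖ := by
      rw [← h2]; exact (Real.le_norm_self t).trans h1
    exact h3.trans (mul_self_le_mul_self (norm_nonneg _) hC)

theorem norm_rt_sub (T : H →L[ℂ] H) {C δ : ℝ} (hC : ‖T‖ ≤ C) (hδ : 0 ≤ δ) (f : ℝ[X])
    (hf : ∀ t ∈ Set.Icc 0 (C * C), |√(√t) - f.eval t| ≤ δ) :
    ‖rt T - aeval (star T * T) f‖ ≤ δ := by
  have hs : IsSelfAdjoint (star T * T) := .star_mul_self T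
  rw [rt_eq_cfc, ← cfc_polynomial f (star T * T),
    ← cfc_sub (fun t => √(√t)) f.eval (star T * T)]
  exact norm_cfc_le hδ (fun t ht => hf t (spec_mem T hC ht))

theorem norm_uu_sub (T : H →L[ℂ] H) {C δ : ℝ} (hC : ‖T‖ ≤ C) (hδ : 0 ≤ δ) (g : ℝ[X])
    (hg : ∀ t ∈ Set.Icc 0 (C * C), |√(√t) - √t * g.eval t| ≤ δ) :
    ‖uu T * rt T - T * aeval (star T * T) g‖ ≤ δ := by
  have hs : IsSelfAdjoint (star T * T) := .star_mul_self T
  have h1 : uu T * rt T - T * aeval (star T * T) g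
      = uu T * (rt T - ab T * aeval (star T * T) g) := by
    rw [mul_sub, ← mul_assoc (uu T) (ab T), uu_mul_ab]
  have h2 : ‖rt T - ab T * aeval (star T * T) g‖ ≤ δ := by
    rw [rt_eq_cfc, ab_eq_cfc, ← cfc_polynomial g (star T * T),
      ← cfc_mul Real.sqrt g.eval (star T * T),
      ← cfc_sub (fun t => √(√t)) (fun t => √t * g.eval t) (star T * T)]
    exact norm_cfc_le hδ (fun t ht => hg t (spec_mem T hC ht))
  rw [h1]
  calc _ ≤ ‖uu T‖ * ‖rt T - ab T * aeval (star T * T) g‖ := norm_mul_le _ _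
    _ ≤ 1 * δ := by gcongr; exact uu_norm T
    _ = δ := one_mul _

/-- The polynomial expression approximating the Aluthge transform. -/
noncomputable def app (f g : ℝ[X]) (T : H →L[ℂ] H) : H →L[ℂ] H :=
  aeval (star T * T) f * (T * aeval (star T * T) g)

theorem star_aeval (f : ℝ[X]) (X : H →L[ℂ] H) (hX : IsSelfAdjoint X) :
    star (aeval X f) = aeval X f := by
  rw [← cfc_polynomial f X]
  exact (IsSelfAdjoint.cfc (f := f.eval) (a := X)).star_eq

theorem star_app (f g : ℝ[X]) (T : H →L[ℂ] H) :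
    star (app f g T) = (aeval (star T * T) g * star T) * aeval (star T * T) f := by
  have hs : IsSelfAdjoint (star T * T) := .star_mul_self T
  rw [app, star_mul, star_mul, star_aeval f _ hs, star_aeval g _ hs]

theorem norm_rt_le (T : H →L[ℂ] H) {C : ℝ} (hC : ‖T‖ ≤ C) : ‖rt T‖ ≤ C + 1 := by
  have h1 := norm_rt_sq T
  have h0 := norm_nonneg (rt T)
  have h2 := norm_nonneg T
  nlinarith

theorem norm_alu_sub_app (T : H →L[ℂ] H) {C δ : ℝ} (hC : ‖T‖ ≤ C) (hδ : 0 ≤ δ) (f g : ℝ[X])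
    (hf : ∀ t ∈ Set.Icc 0 (C * C), |√(√t) - f.eval t| ≤ δ)
    (hg : ∀ t ∈ Set.Icc 0 (C * C), |√(√t) - √t * g.eval t| ≤ δ) :
    ‖alu T - app f g T‖ ≤ δ * (2 * C + 2 + δ) := by
  have h1 := norm_rt_sub T hC hδ f hf
  have h2 := norm_uu_sub T hC hδ g hg
  have h3 := norm_rt_le T hC
  have hC0 : 0 ≤ C := (norm_nonneg _).trans hC
  have h4 : ‖uu T * rt T‖ ≤ C + 1 := by
    calc _ ≤ ‖uu T‖ * ‖rt T‖ := norm_mul_le _ _
      _ ≤ 1 * (C + 1) := by gcongr; exact uu_norm T
      _ = C + 1 := one_mul _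
  have h5 : ‖aeval (star T * T) f‖ ≤ C + 1 + δ := by
    have : aeval (star T * T) f = rt T - (rt T - aeval (star T * T) f) := by abel
    rw [this]
    exact (norm_sub_le _ _).trans (add_le_add h3 h1)
  have e : alu T - app f g T = (rt T - aeval (star T * T) f) * (uu T * rt T)
      + aeval (star T * T) f * (uu T * rt T - T * aeval (star T * T) g) := by
    rw [alu_eq, app]; noncomm_ring
  rw [e]
  calc _ ≤ ‖(rt T - aeval (star T * T) f) * (uu T * rt T)‖
        + ‖aeval (star T * T) f * (uu T * rt T - T * aeval (star T * T) g)‖ := norm_add_le _ _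
    _ ≤ ‖rt T - aeval (star T * T) f‖ * ‖uu T * rt T‖
        + ‖aeval (star T * T) f‖ * ‖uu T * rt T - T * aeval (star T * T) g‖ :=
        add_le_add (norm_mul_le _ _) (norm_mul_le _ _)
    _ ≤ δ * (C + 1) + (C + 1 + δ) * δ := by gcongr
    _ = _ := by ring

/-- Uniform approximation on bounded sets. -/
theorem exists_app (C δ : ℝ) (hC : 0 ≤ C) (hδ : 0 < δ) :
    ∃ f g : ℝ[X], ∀ (H : Type) [NormedAddCommGroup H] [InnerProductSpace ℂ H] [CompleteSpace H]
      (T : H →L[ℂ] H), ‖T‖ ≤ C → ‖alu T - app f g T‖ ≤ δ := by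
  set η : ℝ := min 1 (δ / (2 * C + 3)) with hη
  have hη0 : 0 < η := by positivity
  have hη1 : η ≤ 1 := min_le_left _ _
  have hη2 : η * (2 * C + 3) ≤ δ := by
    have : η ≤ δ / (2 * C + 3) := min_le_right _ _
    rwa [le_div_iff₀ (by positivity)] at this
  obtain ⟨f, hf⟩ := exists_f (C * C) η hη0
  obtain ⟨g, hg⟩ := exists_g (C * C) η hη0
  refine ⟨f, g, fun H _ _ _ T hT => ?_⟩
  refine (norm_alu_sub_app T hT hη0.le f g hf hg).trans ?_
  refine le_trans ?_ hη2
  apply mul_le_mul_of_nonneg_left _ hη0.le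
  linarith

end BP
end Aluthge
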