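import Pool.Agent.Work.MP_943409_an_helper29.Tools

/-!
# MP_943409_an, block P: polar decomposition and the Aluthge transform (P1, P2, P3)
-/

open Complex Filter Topology
open scoped ComplexOrder InnerProductSpace
set_option linter.unusedSectionVars false

namespace Aluthge
namespace BP

variable {H : Type} [NormedAddCommGroup H] [InnerProductSpace ℂ H] [CompleteSpace H]

theorem norm_ab (T : H →L[ℂ] H) (x : H) : ‖ab T x‖ = ‖T x‖ := by
  have h : star (ab T) * ab T = star T * T := by rw [BS.star_ab, BS.ab_mul_ab]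
  exact le_antisymm (BS.norm_le_of_star_mul_le h.le x) (BS.norm_le_of_star_mul_le h.ge x)

/-- The closure of the range of `|T|`. -/
noncomputable def KK (T : H →L[ℂ] H) : Submodule ℂ H :=
  (LinearMap.range (ab T : H →ₗ[ℂ] H)).topologicalClosure

instance (T : H →L[ℂ] H) : CompleteSpace (KK T) :=
  (Submodule.isClosed_topologicalClosure _).completeSpace_coe

theorem mem_KK (T : H →L[ℂ] H) (x : H) : ab T x ∈ KK T :=
  Submodule.le_topologicalClosure _ ⟨x, rfl⟩

theorem mem_KK_orthogonal (T : H →L[ℂ] H) (x : H) : x ∈ (KK T)ᗮ ↔ T x = 0 := by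
  rw [KK, Submodule.orthogonal_closure, Submodule.mem_orthogonal]
  constructor
  · intro h
    have h1 : ⟪ab T (ab T x), x⟫_ℂ = 0 := h _ ⟨_, rfl⟩
    have h2 : ⟪ab T x, ab T x⟫_ℂ = 0 := by
      rw [← BS.inner_star', BS.star_ab]; exact h1
    rw [inner_self_eq_zero] at h2
    have := norm_ab T x
    rw [h2, norm_zero] at this
    exact norm_eq_zero.mp this.symm
  · rintro h _ ⟨y, rfl⟩
    have h2 : ab T x = 0 := by
      have := norm_ab T x
      rw [h, norm_zero] at this
      exact norm_eq_zero.mp this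
    have : ⟪star (ab T) y, x⟫_ℂ = 0 := by rw [BS.inner_star', h2, inner_zero_right]
    rw [BS.star_ab] at this
    exact this

/-- `|T|` with values in the closure of its range. -/
noncomputable def eK (T : H →L[ℂ] H) : H →ₗ[ℂ] KK T :=
  (ab T : H →ₗ[ℂ] H).codRestrict (KK T) (mem_KK T)

theorem eK_dense (T : H →L[ℂ] H) : DenseRange (eK T) := by
  intro y
  rw [Metric.mem_closure_iff]
  intro ε hε
  have hy : (y : H) ∈ closure (LinearMap.range (ab T : H →ₗ[ℂ] H) : Set H) := by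
    exact y.2
  rw [Metric.mem_closure_iff] at hy
  obtain ⟨_, ⟨x, rfl⟩, hx⟩ := hy ε hε
  exact ⟨eK T x, ⟨x, rfl⟩, hx⟩

/-- The isometric extension. -/
noncomputable def vK (T : H →L[ℂ] H) : KK T →L[ℂ] H := (T : H →ₗ[ℂ] H).extendOfNorm (eK T)

theorem vK_eq (T : H →L[ℂ] H) (x : H) : vK T (eK T x) = T x :=
  LinearMap.extendOfNorm_eq (f := (T : H →ₗ[ℂ] H)) (e := eK T) (eK_dense T)
    ⟨1, fun x => by rw [one_mul]; exact (norm_ab T x).ge⟩ x

theorem vK_norm (T : H →L[ℂ] H) (y : KK T) : ‖vK T y‖ = ‖y‖ := by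
  refine (eK_dense T).induction_on (p := fun y => ‖vK T y‖ = ‖y‖) y ?_ (fun x => ?_)
  · apply isClosed_eq <;> fun_prop
  · rw [vK_eq]; exact (norm_ab T x).symm

/-- The partial isometry of the polar decomposition. -/
noncomputable def uu (T : H →L[ℂ] H) : H →L[ℂ] H := vK T ∘L (KK T).orthogonalProjectionOnto

theorem uu_ab_apply (T : H →L[ℂ] H) (x : H) : uu T (ab T x) = T x := by
  have h : (KK T).orthogonalProjectionOnto (ab T x) = eK T x :=
    Submodule.orthogonalProjectionOnto_mem_subspace_eq_self (K := KK T) ⟨ab T x, mem_KK T x⟩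
  rw [uu, ContinuousLinearMap.comp_apply, h, vK_eq]

theorem uu_mul_ab (T : H →L[ℂ] H) : uu T * ab T = T := by
  ext x; exact uu_ab_apply T x

theorem uu_zero_iff (T : H →L[ℂ] H) (x : H) : uu T x = 0 ↔ T x = 0 := by
  rw [uu, ContinuousLinearMap.comp_apply, ← norm_eq_zero, vK_norm, norm_eq_zero,
    Submodule.orthogonalProjectionOnto_eq_zero_iff, mem_KK_orthogonal]

theorem inner_vK (T : H →L[ℂ] H) (y z : KK T) : ⟪vK T y, vK T z⟫_ℂ = ⟪y, z⟫_ℂ := by
  let L : KK T →ₗᵢ[ℂ] H := ⟨(vK T : KK T →ₗ[ℂ] H), vK_norm T⟩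
  exact L.inner_map_map y z

theorem star_uu_mul (T : H →L[ℂ] H) (x : H) :
    (star (uu T) * uu T) x = ((KK T).orthogonalProjectionOnto x : H) := by
  refine ext_inner_left ℂ (fun y => ?_)
  rw [mul_apply_eq_comp, BS.inner_star, uu, ContinuousLinearMap.comp_apply,
    ContinuousLinearMap.comp_apply, inner_vK,
    Submodule.inner_orthogonalProjectionOnto_eq_of_mem_right]

theorem uu_partial (T : H →L[ℂ] H) : uu T * star (uu T) * uu T = uu T := by
  rw [mul_assoc]
  ext x
  rw [mul_apply_eq_comp, star_uu_mul, uu, ContinuousLinearMap.comp_apply,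
    ContinuousLinearMap.comp_apply, Submodule.orthogonalProjectionOnto_mem_subspace_eq_self]

theorem isPolar_uu (T : H →L[ℂ] H) : IsPolar T (uu T) (ab T) :=
  ⟨(ContinuousLinearMap.nonneg_iff_isPositive _).mp (BS.ab_nonneg T), BS.ab_mul_ab T,
    (uu_mul_ab T).symm, uu_partial T, uu_zero_iff T⟩

theorem uu_norm (T : H →L[ℂ] H) : ‖uu T‖ ≤ 1 := by
  refine ContinuousLinearMap.opNorm_le_bound _ zero_le_one (fun x => ?_)
  rw [uu, ContinuousLinearMap.comp_apply, vK_norm, one_mul]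
  exact Submodule.norm_orthogonalProjectionOnto_apply_le _ _

/-- Two operators which agree on the range of `|T|` and on the kernel of `T` are equal. -/
theorem ext_polar {F : Type} [NormedAddCommGroup F] [NormedSpace ℂ F] (T : H →L[ℂ] H)
    (A B : H →L[ℂ] F) (h1 : ∀ x, A (ab T x) = B (ab T x)) (h2 : ∀ x, T x = 0 → A x = B x) :
    A = B := by
  have hK : ∀ y : KK T, A y = B y := by
    intro y
    refine (eK_dense T).induction_on (p := fun y : KK T => A (y : H) = B (y : H)) y ?_ (fun x => h1 x)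
    apply isClosed_eq <;> fun_prop
  ext x
  have hx : x = ((KK T).orthogonalProjectionOnto x : H) + (x - ((KK T).orthogonalProjectionOnto x : H)) := by
    abel
  have h3 : T (x - ((KK T).orthogonalProjectionOnto x : H)) = 0 := by
    rw [← mem_KK_orthogonal]
    exact (KK T).sub_starProjection_mem_orthogonal x
  rw [hx, map_add, map_add, hK, h2 _ h3]

theorem isPolar_unique {T U P : H →L[ℂ] H} (h : IsPolar T U P) : U = uu T ∧ P = ab T := by
  obtain ⟨hP, hPP, hT, hU, hk⟩ := h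
  have hP' : 0 ≤ P := (ContinuousLinearMap.nonneg_iff_isPositive P).mpr hP
  have e1 : P = ab T := (CFC.sqrt_unique hPP hP').symm
  refine ⟨ext_polar T U (uu T) (fun x => ?_) (fun x hx => ?_), e1⟩
  · rw [uu_ab_apply, ← e1]
    exact (congrArg (fun F : H →L[ℂ] H => F x) hT).symm
  · rw [(hk x).mpr hx, (uu_zero_iff T x).mpr hx]

theorem isAluthge_rt (T : H →L[ℂ] H) : IsAluthge T (rt T * uu T * rt T) :=
  ⟨uu T, ab T, rt T, isPolar_uu T, (ContinuousLinearMap.nonneg_iff_isPositive _).mp (BS.rt_nonneg T),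
    BS.rt_mul_rt T, rfl⟩

theorem isAluthge_unique {T S : H →L[ℂ] H} (h : IsAluthge T S) : S = rt T * uu T * rt T := by
  obtain ⟨U, P, R, hp, hR, hRR, rfl⟩ := h
  obtain ⟨rfl, rfl⟩ := isPolar_unique hp
  have hR' : 0 ≤ R := (ContinuousLinearMap.nonneg_iff_isPositive R).mpr hR
  have : rt T = R := CFC.sqrt_unique hRR hR'
  rw [this]

theorem alu_eq (T : H →L[ℂ] H) : alu T = rt T * uu T * rt T :=
  isAluthge_unique (Classical.epsilon_spec (p := IsAluthge T) ⟨_, isAluthge_rt T⟩)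

theorem norm_ab_eq (T : H →L[ℂ] H) : ‖ab T‖ = ‖T‖ := by
  apply le_antisymm
  · exact ContinuousLinearMap.opNorm_le_bound _ (norm_nonneg _)
      (fun x => by rw [norm_ab]; exact T.le_opNorm x)
  · exact ContinuousLinearMap.opNorm_le_bound _ (norm_nonneg _)
      (fun x => by rw [← norm_ab]; exact (ab T).le_opNorm x)

theorem norm_rt_sq (T : H →L[ℂ] H) : ‖rt T‖ * ‖rt T‖ = ‖T‖ := by
  have := CStarRing.norm_star_mul_self (x := rt T)
  rw [BS.star_rt, BS.rt_mul_rt, norm_ab_eq] at this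
  exact this.symm

end BP

theorem stmt_P1 : Stmt_P1 := by
  intro H _ _ _ T
  refine ⟨?_, fun S hS => ?_⟩
  · rw [BP.alu_eq]; exact BP.isAluthge_rt T
  · rw [BP.alu_eq]; exact BP.isAluthge_unique hS

theorem stmt_P2 : Stmt_P2 := by
  intro H _ _ _ T
  have h : alu T * rt T = rt T * T := by
    rw [BP.alu_eq, mul_assoc, BS.rt_mul_rt, mul_assoc, BP.uu_mul_ab]
  refine ⟨h, fun S hT hS => ?_⟩
  have hi : Function.Injective (rt T) := by
    rw [injective_iff_map_eq_zero]
    intro x hx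
    have h1 : ab T x = 0 := by
      rw [← BS.rt_mul_rt, mul_apply_eq_comp, hx, map_zero]
    have := BP.norm_ab T x
    rw [h1, norm_zero] at this
    exact (injective_iff_map_eq_zero T).mp hT x (norm_eq_zero.mp this.symm)
  have hd := BS.dense_of_injective (isSelfAdjoint_iff.mpr (BS.star_rt T)) hi
  exact BS.cancel_right hd (hS.trans h.symm)

theorem stmt_P3 : Stmt_P3 := by
  intro H _ _ _ T
  rw [BP.alu_eq]
  calc ‖rt T * BP.uu T * rt T‖ ≤ ‖rt T * BP.uu T‖ * ‖rt T‖ := norm_mul_le _ _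
    _ ≤ (‖rt T‖ * ‖BP.uu T‖) * ‖rt T‖ := by gcongr; exact norm_mul_le _ _
    _ ≤ (‖rt T‖ * 1) * ‖rt T‖ := by gcongr; exact BP.uu_norm T
    _ = ‖T‖ := by rw [mul_one, BP.norm_rt_sq]

end Aluthge
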