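import Pool.Agent.Work.MP_943409_an_helper82.Apx

/-!
# MP_943409_an, blocks P4 and P5
-/

open Complex Filter Topology Polynomial
open scoped ComplexOrder InnerProductSpace
set_option linter.unusedSectionVars false

namespace Aluthge
namespace BP

variable {H : Type} [NormedAddCommGroup H] [InnerProductSpace ℂ H] [CompleteSpace H]
variable {K : Type} [NormedAddCommGroup K] [InnerProductSpace ℂ K] [CompleteSpace K]

/-! ## P4 -/

theorem aeval_intertwine (X : H →L[ℂ] H) (X' : K →L[ℂ] K) (J : K →ₗᵢ[ℂ] H)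
    (h : ∀ x, X (J x) = J (X' x)) (f : ℝ[X]) (x : K) : (aeval X f) (J x) = J ((aeval X' f) x) := by
  induction f using Polynomial.induction_on generalizing x with
  | C r =>
    simp only [aeval_C, Algebra.algebraMap_eq_smul_one]
    rw [_root_.smul_apply, _root_.smul_apply, one_apply_eq_self, one_apply_eq_self]
    rw [← Complex.coe_smul r (J x), ← Complex.coe_smul r x, map_smul]
  | add p q hp hq =>
    simp only [map_add, _root_.add_apply, hp, hq]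
  | monomial n r ih =>
    have e1 : (C r * Polynomial.X ^ (n + 1) : ℝ[X]) = (C r * Polynomial.X ^ n) * Polynomial.X := by
      ring
    rw [e1, map_mul _ _ Polynomial.X, map_mul _ _ Polynomial.X, aeval_X, aeval_X,
      mul_apply_eq_comp, mul_apply_eq_comp, h, ih]

theorem app_intertwine (T : H →L[ℂ] H) (T' : K →L[ℂ] K) (J : K →ₗᵢ[ℂ] H)
    (h1 : ∀ x, T (J x) = J (T' x)) (h2 : ∀ x, star T (J x) = J (star T' x)) (f g : ℝ[X]) (x : K) :
    app f g T (J x) = J (app f g T' x) ∧ star (app f g T) (J x) = J (star (app f g T') x) := by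
  have hX : ∀ x, (star T * T) (J x) = J ((star T' * T') x) := by
    intro x
    rw [mul_apply_eq_comp, mul_apply_eq_comp, h1, h2]
  have hp := aeval_intertwine _ _ J hX
  constructor
  · rw [app, app]
    simp only [mul_apply_eq_comp, hp, h1]
  · rw [star_app, star_app]
    simp only [mul_apply_eq_comp, hp, h2]

theorem norm_sub_le_of_approx (A A' : H →L[ℂ] H) (B B' : K →L[ℂ] K) (J : K →ₗᵢ[ℂ] H) (x : K) {δ : ℝ}
    (hA : ‖A - A'‖ ≤ δ) (hB : ‖B - B'‖ ≤ δ) (h : A' (J x) = J (B' x)) :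
    ‖A (J x) - J (B x)‖ ≤ 2 * δ * ‖x‖ := by
  have e : A (J x) - J (B x) = (A - A') (J x) - J ((B - B') x) := by
    simp only [_root_.sub_apply, map_sub, h]; abel
  rw [e]
  calc _ ≤ ‖(A - A') (J x)‖ + ‖J ((B - B') x)‖ := norm_sub_le _ _
    _ = ‖(A - A') (J x)‖ + ‖(B - B') x‖ := by rw [J.norm_map]
    _ ≤ ‖A - A'‖ * ‖J x‖ + ‖B - B'‖ * ‖x‖ :=
        add_le_add (ContinuousLinearMap.le_opNorm _ _) (ContinuousLinearMap.le_opNorm _ _)
    _ ≤ δ * ‖x‖ + δ * ‖x‖ := by rw [J.norm_map]; gcongr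
    _ = _ := by ring

theorem eq_of_forall_small {a b : H} (c : ℝ) (h : ∀ δ : ℝ, 0 < δ → ‖a - b‖ ≤ 2 * δ * c) : a = b := by
  rw [← sub_eq_zero, ← norm_le_zero_iff]
  refine le_of_forall_pos_le_add (fun ε hε => ?_)
  have hc : 0 ≤ c := by
    have := (norm_nonneg _).trans (h 1 one_pos)
    linarith
  have := h (ε / (2 * (c + 1))) (by positivity)
  refine this.trans ?_
  rw [zero_add]
  have e : 2 * (ε / (2 * (c + 1))) * c = ε * (c / (c + 1)) := by field_simp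
  rw [e]
  have : c / (c + 1) ≤ 1 := by rw [div_le_one (by positivity)]; linarith
  nlinarith

end BP

theorem stmt_P4 : Stmt_P4 := by
  intro H K _ _ _ _ _ _ T T' J h1 h2
  have key : ∀ δ : ℝ, 0 < δ → ∃ f g : ℝ[X], ‖alu T - BP.app f g T‖ ≤ δ ∧
      ‖alu T' - BP.app f g T'‖ ≤ δ := by
    intro δ hδ
    obtain ⟨f, g, h⟩ := BP.exists_app (max ‖T‖ ‖T'‖) δ (le_max_of_le_left (norm_nonneg _)) hδ
    exact ⟨f, g, h H T (le_max_left _ _), h K T' (le_max_right _ _)⟩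
  constructor
  · intro x
    refine BP.eq_of_forall_small ‖x‖ (fun δ hδ => ?_)
    obtain ⟨f, g, e1, e2⟩ := key δ hδ
    exact BP.norm_sub_le_of_approx _ _ _ _ J x e1 e2 (BP.app_intertwine T T' J h1 h2 f g x).1
  · intro x
    refine BP.eq_of_forall_small ‖x‖ (fun δ hδ => ?_)
    obtain ⟨f, g, e1, e2⟩ := key δ hδ
    refine BP.norm_sub_le_of_approx _ (star (BP.app f g T)) _ (star (BP.app f g T')) J x ?_ ?_
      (BP.app_intertwine T T' J h1 h2 f g x).2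
    · rw [← star_sub, norm_star]; exact e1
    · rw [← star_sub, norm_star]; exact e2

/-! ## P5 -/

namespace BP

variable {H : Type} [NormedAddCommGroup H] [InnerProductSpace ℂ H] [CompleteSpace H]

/-- Bounded strong convergence. -/
def SC (A : ℕ → H →L[ℂ] H) (A₀ : H →L[ℂ] H) : Prop :=
  (∃ M : ℝ, ∀ k, ‖A k‖ ≤ M) ∧ ∀ x, Tendsto (fun k => A k x) atTop (𝓝 (A₀ x))

theorem SC.mul {A B : ℕ → H →L[ℂ] H} {A₀ B₀ : H →L[ℂ] H} (hA : SC A A₀) (hB : SC B B₀) :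
    SC (fun k => A k * B k) (A₀ * B₀) := by
  obtain ⟨⟨M, hM⟩, hA⟩ := hA
  obtain ⟨⟨N, hN⟩, hB⟩ := hB
  refine ⟨⟨M * N, fun k => ?_⟩, fun x => ?_⟩
  · have hM0 : 0 ≤ M := (norm_nonneg _).trans (hM k)
    exact (norm_mul_le _ _).trans (mul_le_mul (hM k) (hN k) (norm_nonneg _) hM0)
  · have h1 : Tendsto (fun k => M * ‖B k x - B₀ x‖ + ‖A k (B₀ x) - A₀ (B₀ x)‖) atTop (𝓝 0) := by
      have e1 := (tendsto_iff_norm_sub_tendsto_zero.mp (hB x)).const_mul M
      have e2 := tendsto_iff_norm_sub_tendsto_zero.mp (hA (B₀ x))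
      simpa using e1.add e2
    rw [tendsto_iff_norm_sub_tendsto_zero]
    refine squeeze_zero (fun _ => norm_nonneg _) (fun k => ?_) h1
    have e : (A k * B k) x - (A₀ * B₀) x = A k (B k x - B₀ x) + (A k (B₀ x) - A₀ (B₀ x)) := by
      rw [mul_apply_eq_comp, mul_apply_eq_comp, map_sub]; abel
    rw [e]
    refine (norm_add_le _ _).trans (add_le_add ?_ le_rfl)
    exact ((A k).le_opNorm _).trans (mul_le_mul_of_nonneg_right (hM k) (norm_nonneg _))

theorem SC.add {A B : ℕ → H →L[ℂ] H} {A₀ B₀ : H →L[ℂ] H} (hA : SC A A₀) (hB : SC B B₀) :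
    SC (fun k => A k + B k) (A₀ + B₀) := by
  obtain ⟨⟨M, hM⟩, hA⟩ := hA
  obtain ⟨⟨N, hN⟩, hB⟩ := hB
  exact ⟨⟨M + N, fun k => (norm_add_le _ _).trans (add_le_add (hM k) (hN k))⟩,
    fun x => (hA x).add (hB x)⟩

theorem SC.const (A : H →L[ℂ] H) : SC (fun _ => A) A :=
  ⟨⟨‖A‖, fun _ => le_rfl⟩, fun _ => tendsto_const_nhds⟩

theorem SC.aeval {A : ℕ → H →L[ℂ] H} {A₀ : H →L[ℂ] H} (hA : SC A A₀) (f : ℝ[X]) :
    SC (fun k => aeval (A k) f) (aeval A₀ f) := by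
  induction f using Polynomial.induction_on with
  | C r => simp only [aeval_C]; exact SC.const _
  | add p q hp hq => simp only [map_add]; exact hp.add hq
  | monomial n r ih =>
    have e1 : (C r * Polynomial.X ^ (n + 1) : ℝ[X]) = (C r * Polynomial.X ^ n) * Polynomial.X := by
      ring
    rw [e1]
    simp only [map_mul (Polynomial.aeval _) _ Polynomial.X, aeval_X]
    exact ih.mul hA

theorem tendsto_of_approx {A : ℕ → H →L[ℂ] H} {A₀ : H →L[ℂ] H}
    (h : ∀ δ : ℝ, 0 < δ → ∃ (B : ℕ → H →L[ℂ] H) (B₀ : H →L[ℂ] H), (∀ k, ‖A k - B k‖ ≤ δ) ∧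
      ‖A₀ - B₀‖ ≤ δ ∧ ∀ x, Tendsto (fun k => B k x) atTop (𝓝 (B₀ x))) (x : H) :
    Tendsto (fun k => A k x) atTop (𝓝 (A₀ x)) := by
  rw [Metric.tendsto_atTop]
  intro ε hε
  obtain ⟨B, B₀, h1, h2, h3⟩ := h (ε / (4 * (‖x‖ + 1))) (by positivity)
  have h4 := h3 x
  rw [Metric.tendsto_atTop] at h4
  obtain ⟨N, hN⟩ := h4 (ε / 2) (by positivity)
  refine ⟨N, fun k hk => ?_⟩
  have h5 := hN k hk
  rw [dist_eq_norm] at h5 ⊢
  have e : A k x - A₀ x = (A k - B k) x + (B k x - B₀ x) - (A₀ - B₀) x := by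
    simp only [_root_.sub_apply]; abel
  have hb : ε / (4 * (‖x‖ + 1)) * ‖x‖ ≤ ε / 4 := by
    rw [div_mul_eq_mul_div, div_le_div_iff₀ (by positivity) (by norm_num)]
    nlinarith [norm_nonneg x]
  have e1 : ‖(A k - B k) x‖ ≤ ε / 4 :=
    ((A k - B k).le_opNorm x).trans ((mul_le_mul_of_nonneg_right (h1 k) (norm_nonneg _)).trans hb)
  have e2 : ‖(A₀ - B₀) x‖ ≤ ε / 4 :=
    ((A₀ - B₀).le_opNorm x).trans ((mul_le_mul_of_nonneg_right h2 (norm_nonneg _)).trans hb)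
  rw [e]
  calc _ ≤ ‖(A k - B k) x + (B k x - B₀ x)‖ + ‖(A₀ - B₀) x‖ := norm_sub_le _ _
    _ ≤ (‖(A k - B k) x‖ + ‖B k x - B₀ x‖) + ‖(A₀ - B₀) x‖ := by gcongr; exact norm_add_le _ _
    _ < ε := by linarith

end BP

theorem stmt_P5 : Stmt_P5 := by
  intro H _ _ _ T T₀ C hC h1 h2
  have hC0 : 0 ≤ C := (norm_nonneg _).trans (hC 0)
  have s1 : BP.SC T T₀ := ⟨⟨C, hC⟩, h1⟩
  have s2 : BP.SC (fun k => star (T k)) (star T₀) :=
    ⟨⟨C, fun k => by rw [norm_star]; exact hC k⟩, h2⟩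
  have s3 := s2.mul s1
  have key : ∀ δ : ℝ, 0 < δ → ∃ f g : ℝ[X], (∀ k, ‖alu (T k) - BP.app f g (T k)‖ ≤ δ) ∧
      ‖alu T₀ - BP.app f g T₀‖ ≤ δ := by
    intro δ hδ
    obtain ⟨f, g, h⟩ := BP.exists_app (max C ‖T₀‖) δ (le_max_of_le_left hC0) hδ
    exact ⟨f, g, fun k => h H (T k) ((hC k).trans (le_max_left _ _)), h H T₀ (le_max_right _ _)⟩
  constructor
  · refine BP.tendsto_of_approx (fun δ hδ => ?_)
    obtain ⟨f, g, e1, e2⟩ := key δ hδ
    refine ⟨fun k => BP.app f g (T k), BP.app f g T₀, e1, e2, ?_⟩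
    exact ((s3.aeval f).mul (s1.mul (s3.aeval g))).2
  · refine BP.tendsto_of_approx (fun δ hδ => ?_)
    obtain ⟨f, g, e1, e2⟩ := key δ hδ
    refine ⟨fun k => star (BP.app f g (T k)), star (BP.app f g T₀), fun k => ?_, ?_, ?_⟩
    · rw [← star_sub, norm_star]; exact e1 k
    · rw [← star_sub, norm_star]; exact e2
    · have := (((s3.aeval g).mul s2).mul (s3.aeval f)).2
      simp only [BP.star_app]
      exact this

end Aluthge
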